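import Pool.Agent.N110.CC.RStm
import Pool.Agent.N110.Geo
import Pool.Agent.R887.Nef

/-!
Project CC (helper110), leaf PSDN (helper701): the pull back of a divisor is pseudo-effective only if
the divisor is.
-/

set_option autoImplicit false

open FF Pool.Agent.W602.GT Pool.Agent.Y172 Pool.Agent.R887
open Pool.Agent.N110 Pool.Agent.N110.CC

namespace Pool.Agent.N701.CC

theorem leafPSDN (hNORM : S_NORM) (hPUSH : S_PUSH) : S_PSDN := by
  intro K K' _ _ _ _ N N' n y y' hy hy' hn hn' _ π hπ L L' hLL hps i hi q hq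
  obtain ⟨A, hA, hAP⟩ := exists_hyp hy hi
  obtain ⟨i', hi'⟩ := hy'.ne
  obtain ⟨A', hA', hAP'⟩ := exists_hyp hy' hi'
  obtain ⟨A1, hA1, hpush⟩ := hPUSH K K' N N' n y y' hy hy' hn hn' π hπ A' hA'
  obtain ⟨f1, s, hf1, hdom⟩ := dominate hy hA1 hi hA hAP
  obtain ⟨m, hm, f, hf, hpos⟩ := hps i' hi' (q * (s + 1)) (Nat.mul_pos hq (Nat.succ_pos s))
  have hπf1 : π f1 ≠ 0 := (map_ne_zero π).2 hf1
  obtain ⟨d, hd, g, hg, hnorm⟩ := hNORM K K' N N' n y y' hy hy' hn hn' π hπ (f * π f1 ^ m)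
    (mul_ne_zero hf (pow_ne_zero m hπf1))
  refine ⟨d * m * (s + 1), Nat.mul_pos (Nat.mul_pos hd hm) (Nat.succ_pos s), g, hg,
    fun P l hP hl => ?_⟩
  rw [← hAP P l hP hl]
  have h1 := hnorm P hP (-(m * (s + 1) * (q * L P + A P))) (fun Q e hQ hQP => by
    obtain ⟨l', hl'⟩ := exists_centred hy' Q
    have h2 := hpos Q l' hQ hl'
    rw [← hAP' Q l' hQ hl', hLL Q P e hQ hQP] at h2
    have h3 := hpush Q P e hQ hQP
    have h4 := hdom P hP
    have h5 := hA.1 P hP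
    have he : (0 : ℚ) ≤ e := Nat.cast_nonneg e
    have hm0 : (0 : ℚ) ≤ m := Nat.cast_nonneg m
    have h6 : A' Q ≤ e * (P.ord f1 + (s + 1) * A P) := by
      refine h3.trans (mul_le_mul_of_nonneg_left ?_ he)
      linarith
    have h7 := mul_le_mul_of_nonneg_left h6 hm0
    rw [Q.ord_mul hf (pow_ne_zero m hπf1), Q.ord_pow, hQP.2]
    push_cast at h2 ⊢
    linarith)
  push_cast
  linarith

end Pool.Agent.N701.CC
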